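import Mathlib

/-!
# A version of Dietzmann's lemma for group actions

If `S` is a conjugation invariant symmetric subset of a group `L` acting on `Ω`, every element of
`S` has finite orbits, and `S x` is finite for every `x`, then the subgroup generated by `S` has
finite orbits.
-/

set_option autoImplicit false

namespace Pool.Agent.W385.GD

open Pointwise

section Dietzmann

variable {L Ω : Type*} [Group L] [MulAction L Ω]

/-- points reached from `x` in `k` steps with elements of `S` -/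
def reach (S : Set L) (x : Ω) : ℕ → Set Ω
  | 0 => {x}
  | k + 1 => {y | ∃ s ∈ S, ∃ y' ∈ reach S x k, y = s • y'}

/-- points of the form `σ₁ ^ a₁ ⋯ σₘ ^ aₘ x` -/
def tower (x : Ω) : List L → Set Ω
  | [] => {x}
  | σ :: l => {y | ∃ a : ℕ, ∃ t ∈ tower x l, y = σ ^ a • t}

lemma self_mem_tower (x : Ω) (l : List L) : x ∈ tower x l := by
  induction l with
  | nil => exact rfl
  | cons σ l ih => exact ⟨0, x, ih, by simp⟩

lemma smul_mem_tower (x : Ω) (σ : L) (l : List L) {y : Ω} (hy : y ∈ tower x (σ :: l)) :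
    σ • y ∈ tower x (σ :: l) := by
  obtain ⟨a, t, ht, rfl⟩ := hy
  exact ⟨a + 1, t, ht, by rw [pow_succ', mul_smul]⟩

lemma tower_sub (x : Ω) (σ : L) (l : List L) {y : Ω} (hy : y ∈ tower x l) :
    y ∈ tower x (σ :: l) := ⟨0, y, hy, by simp⟩

lemma tower_finite (x : Ω) (l : List L)
    (h : ∀ σ ∈ l, ∀ t : Ω, {y | ∃ a : ℕ, y = σ ^ a • t}.Finite) : (tower x l).Finite := by
  induction l with
  | nil => exact Set.finite_singleton x
  | cons σ l ih =>
    have h1 := ih (fun τ hτ => h τ (List.mem_cons_of_mem _ hτ))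
    have h2 : tower x (σ :: l) = ⋃ t ∈ tower x l, {y | ∃ a : ℕ, y = σ ^ a • t} := by
      ext y
      simp only [Set.mem_iUnion]
      constructor
      · rintro ⟨a, t, ht, rfl⟩
        exact ⟨t, ht, a, rfl⟩
      · rintro ⟨t, ht, a, rfl⟩
        exact ⟨a, t, ht, rfl⟩
    rw [h2]
    exact h1.biUnion (fun t _ => h σ List.mem_cons_self t)

lemma reach_last {S : Set L} (hS : ∀ s ∈ S, ∀ t ∈ S, t⁻¹ * s * t ∈ S) (x : Ω) (l : List L)
    (hl : ∀ s ∈ S, ∃ σ ∈ l, s • x = σ • x) (hlS : ∀ σ ∈ l, σ ∈ S) (k : ℕ) :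
    ∀ y ∈ reach S x (k + 1), ∃ σ ∈ l, ∃ y' ∈ reach S x k, y = σ • y' := by
  induction k with
  | zero =>
    rintro y ⟨s, hs, y', hy', rfl⟩
    have : y' = x := hy'
    subst this
    obtain ⟨σ, hσ, h⟩ := hl s hs
    exact ⟨σ, hσ, y', rfl, h⟩
  | succ k ih =>
    rintro y ⟨s, hs, y', hy', rfl⟩
    obtain ⟨σ, hσ, y'', hy'', rfl⟩ := ih y' hy'
    refine ⟨σ, hσ, (σ⁻¹ * s * σ) • y'', ⟨_, hS s hs σ (hlS σ hσ), y'', hy'', rfl⟩, ?_⟩
    simp only [← mul_smul]
    congr 1
    group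

lemma mem_tower {S : Set L} (hS : ∀ s ∈ S, ∀ t ∈ S, t⁻¹ * s * t ∈ S) (x : Ω) (l : List L) :
    ∀ pre : List L, (∀ s ∈ S, ∃ σ ∈ pre ++ l, s • x = σ • x) → (∀ σ ∈ pre ++ l, σ ∈ S) →
    ∀ k : ℕ, ∀ y ∈ reach S x k,
      (∀ σ ∈ pre, ∀ k', k = k' + 1 → ¬ ∃ y' ∈ reach S x k', y = σ • y') → y ∈ tower x l := by
  induction l with
  | nil =>
    intro pre hl hlS k y hy hno
    rcases k with _ | k
    · exact hy
    · obtain ⟨σ, hσ, h⟩ := reach_last hS x _ hl hlS k y hy
      rw [List.append_nil] at hσ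
      exact absurd h (hno σ hσ k rfl)
  | cons σ l ih =>
    intro pre hl hlS k
    induction k with
    | zero =>
      intro y hy _
      have : y = x := hy
      subst this
      exact self_mem_tower _ _
    | succ k ihk =>
      intro y hy hno
      by_cases h : ∃ y' ∈ reach S x k, y = σ • y'
      · obtain ⟨y', hy', rfl⟩ := h
        apply smul_mem_tower
        apply ihk y' hy'
        rintro τ hτ k' rfl ⟨y'', hy'', rfl⟩
        apply hno τ hτ (k' + 1) rfl
        have hτS : τ ∈ S := hlS τ (List.mem_append_left _ hτ)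
        have hσS : σ ∈ S := hlS σ (by simp)
        refine ⟨(τ⁻¹ * σ * τ) • y'', ⟨_, hS σ hσS τ hτS, y'', hy'', rfl⟩, ?_⟩
        simp only [← mul_smul]
        congr 1
        group
      · apply tower_sub
        refine ih (pre ++ [σ]) (by simpa using hl) (by simpa using hlS) (k + 1) y hy ?_
        intro τ hτ k' hk'
        rw [List.mem_append, List.mem_singleton] at hτ
        rcases hτ with hτ | rfl
        · exact hno τ hτ k' hk'
        · have : k' = k := by omega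
          subst this
          exact h

lemma reach_finite {S : Set L} (hS : ∀ s ∈ S, ∀ t ∈ S, t⁻¹ * s * t ∈ S) (x : Ω)
    (hfin : {y | ∃ s ∈ S, y = s • x}.Finite)
    (hell : ∀ s ∈ S, ∀ t : Ω, {y | ∃ a : ℕ, y = s ^ a • t}.Finite) :
    (⋃ k, reach S x k).Finite := by
  classical
  have hch : ∀ y ∈ hfin.toFinset, ∃ s ∈ S, y = s • x := by
    intro y hy
    simpa using hy
  choose! σ hσS hσ using hch
  set l : List L := hfin.toFinset.toList.map σ with hl
  have h1 : ∀ s ∈ S, ∃ τ ∈ ([] : List L) ++ l, s • x = τ • x := by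
    intro s hs
    have hmem : s • x ∈ hfin.toFinset := by
      rw [Set.Finite.mem_toFinset]
      exact ⟨s, hs, rfl⟩
    refine ⟨σ (s • x), ?_, hσ _ hmem⟩
    rw [List.nil_append, hl, List.mem_map]
    exact ⟨s • x, by simpa using hmem, rfl⟩
  have h2 : ∀ τ ∈ ([] : List L) ++ l, τ ∈ S := by
    intro τ hτ
    rw [List.nil_append, hl, List.mem_map] at hτ
    obtain ⟨y, hy, rfl⟩ := hτ
    exact hσS y (by simpa using hy)
  refine (tower_finite x l (fun τ hτ => hell τ (h2 τ (by simpa using hτ)))).subset ?_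
  intro y hy
  rw [Set.mem_iUnion] at hy
  obtain ⟨k, hy⟩ := hy
  exact mem_tower hS x l [] h1 h2 k y hy (by simp)

/-- Dietzmann's lemma for actions. -/
theorem closure_orbit_finite {S : Set L} (hS : ∀ s ∈ S, ∀ t ∈ S, t⁻¹ * s * t ∈ S)
    (hinv : ∀ s ∈ S, s⁻¹ ∈ S) (x : Ω)
    (hfin : {y | ∃ s ∈ S, y = s • x}.Finite)
    (hell : ∀ s ∈ S, ∀ t : Ω, {y | ∃ a : ℕ, y = s ^ a • t}.Finite) :
    {y | ∃ φ ∈ Subgroup.closure S, y = φ • x}.Finite := by
  refine (reach_finite hS x hfin hell).subset ?_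
  have h1 : ∀ s ∈ S, ∀ y ∈ ⋃ k, reach S x k, s • y ∈ ⋃ k, reach S x k := by
    intro s hs y hy
    rw [Set.mem_iUnion] at hy ⊢
    obtain ⟨k, hk⟩ := hy
    exact ⟨k + 1, s, hs, y, hk, rfl⟩
  have h2 : Subgroup.closure S ≤ MulAction.stabilizer L (⋃ k, reach S x k) := by
    rw [Subgroup.closure_le]
    intro s hs
    rw [SetLike.mem_coe, MulAction.mem_stabilizer_iff]
    apply subset_antisymm
    · rintro _ ⟨y, hy, rfl⟩
      exact h1 s hs y hy
    · intro y hy
      refine ⟨s⁻¹ • y, h1 _ (hinv s hs) y hy, by simp⟩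
  rintro y ⟨φ, hφ, rfl⟩
  have h3 := h2 hφ
  rw [MulAction.mem_stabilizer_iff] at h3
  rw [← h3]
  exact ⟨x, Set.mem_iUnion.2 ⟨0, rfl⟩, rfl⟩

end Dietzmann

end Pool.Agent.W385.GD
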