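import Mathlib

/-!
# Locally finite connected graphs and their automorphisms
-/

set_option autoImplicit false

namespace Pool.Agent.W385.GD

variable {V : Type*} {X : SimpleGraph V}

/-- the group of automorphisms acts on the vertices -/
instance autAction (X : SimpleGraph V) : MulAction (X ≃g X) V where
  smul φ v := φ v
  one_smul _ := rfl
  mul_smul _ _ _ := rfl

lemma smul_def (φ : X ≃g X) (v : V) : φ • v = φ v := rfl

lemma dist_smul_le (φ : X ≃g X) (hX : X.Connected) (v w : V) :
    X.dist (φ • v) (φ • w) ≤ X.dist v w := by
  obtain ⟨p, hp⟩ := hX.exists_walk_length_eq_dist v w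
  rw [← hp, ← SimpleGraph.Walk.length_map φ.toHom p]
  exact SimpleGraph.dist_le _

lemma dist_smul (φ : X ≃g X) (hX : X.Connected) (v w : V) :
    X.dist (φ • v) (φ • w) = X.dist v w := by
  apply le_antisymm (dist_smul_le φ hX v w)
  have h := dist_smul_le φ⁻¹ hX (φ • v) (φ • w)
  simpa using h

lemma ball_finite (hX : X.Connected) (hlf : ∀ v, (X.neighborSet v).Finite) (v : V) (n : ℕ) :
    {w | X.dist v w ≤ n}.Finite := by
  induction n with
  | zero =>
    refine (Set.finite_singleton v).subset ?_
    intro w hw
    have : X.dist v w = 0 := by simpa using hw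
    rw [hX.dist_eq_zero_iff] at this
    exact this.symm
  | succ n ih =>
    have h : {w | X.dist v w ≤ n + 1} ⊆ {w | X.dist v w ≤ n} ∪
        ⋃ u ∈ {w | X.dist v w ≤ n}, X.neighborSet u := by
      intro w hw
      by_cases h1 : X.dist v w ≤ n
      · exact Or.inl h1
      · right
        have h2 : X.dist v w = n + 1 := le_antisymm hw (by omega)
        obtain ⟨p, hp⟩ := hX.exists_walk_length_eq_dist v w
        rw [h2] at hp
        have hnn : ¬ p.reverse.Nil := by
          intro hnil
          have := SimpleGraph.Walk.length_eq_zero_iff.2 hnil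
          rw [SimpleGraph.Walk.length_reverse, hp] at this
          omega
        have h3 := SimpleGraph.Walk.adj_snd hnn
        simp only [Set.mem_iUnion]
        refine ⟨p.reverse.snd, ?_, h3.symm⟩
        have h4 : X.dist p.reverse.snd v ≤ p.reverse.tail.length := SimpleGraph.dist_le _
        have h5 : p.reverse.tail.length + 1 = p.reverse.length :=
          SimpleGraph.Walk.length_tail_add_one hnn
        rw [SimpleGraph.Walk.length_reverse, hp] at h5
        show X.dist v _ ≤ n
        rw [X.dist_comm]
        omega
    refine Set.Finite.subset ?_ h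
    exact ih.union (ih.biUnion (fun u _ => hlf u))

end Pool.Agent.W385.GD
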