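import Pool.Agent.W385.GD.Defs
import Pool.Agent.W385.GD.Graph

/-!
# The quotient of a graph by a group of automorphisms
-/

set_option autoImplicit false

namespace Pool.Agent.W385.GD

variable {V : Type*} {X : SimpleGraph V}

/-- the set of orbits -/
abbrev Orb (N : Subgroup (X ≃g X)) : Type _ := MulAction.orbitRel.Quotient N V

/-- the orbit of a vertex -/
def orb (N : Subgroup (X ≃g X)) (x : V) : Orb N := Quotient.mk'' x

lemma orb_surj (N : Subgroup (X ≃g X)) (a : Orb N) : ∃ x : V, orb N x = a :=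
  Quotient.inductionOn' a (fun x => ⟨x, rfl⟩)

lemma orb_eq_iff (N : Subgroup (X ≃g X)) (x y : V) :
    orb N x = orb N y ↔ ∃ n ∈ N, n • y = x := by
  unfold orb
  rw [Quotient.eq'']
  constructor
  · rintro ⟨⟨n, hn⟩, h⟩
    exact ⟨n, hn, h⟩
  · rintro ⟨n, hn, h⟩
    exact ⟨⟨n, hn⟩, h⟩

/-- the quotient graph -/
def quotGraph (N : Subgroup (X ≃g X)) : SimpleGraph (Orb N) where
  Adj a b := a ≠ b ∧ ∃ x y, orb N x = a ∧ orb N y = b ∧ X.Adj x y
  symm := ⟨by
    rintro a b ⟨h, x, y, hx, hy, hxy⟩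
    exact ⟨h.symm, y, x, hy, hx, hxy.symm⟩⟩
  loopless := ⟨by
    rintro a ⟨h, _⟩
    exact h rfl⟩

lemma quot_walk (N : Subgroup (X ≃g X)) {x y : V} (p : X.Walk x y) :
    ∃ q : (quotGraph N).Walk (orb N x) (orb N y), q.length ≤ p.length := by
  induction p with
  | nil => exact ⟨SimpleGraph.Walk.nil, le_rfl⟩
  | @cons u v w h p ih =>
    obtain ⟨q, hq⟩ := ih
    by_cases he : orb N u = orb N v
    · rw [he]
      exact ⟨q, by rw [SimpleGraph.Walk.length_cons]; omega⟩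
    · exact ⟨SimpleGraph.Walk.cons (show (quotGraph N).Adj (orb N u) (orb N v) from
        ⟨he, u, v, rfl, rfl, h⟩) q, by
          rw [SimpleGraph.Walk.length_cons, SimpleGraph.Walk.length_cons]; omega⟩

lemma quot_connected (N : Subgroup (X ≃g X)) (hX : X.Connected) : (quotGraph N).Connected := by
  have := hX.nonempty
  rw [SimpleGraph.connected_iff]
  refine ⟨?_, ⟨orb N (Classical.arbitrary V)⟩⟩
  intro a b
  obtain ⟨x, rfl⟩ := orb_surj N a
  obtain ⟨y, rfl⟩ := orb_surj N b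
  obtain ⟨p⟩ := hX.preconnected x y
  obtain ⟨q, _⟩ := quot_walk N p
  exact ⟨q⟩

lemma quot_dist (N : Subgroup (X ≃g X)) (hX : X.Connected) (x y : V) :
    (quotGraph N).dist (orb N x) (orb N y) ≤ X.dist x y := by
  obtain ⟨p, hp⟩ := hX.exists_walk_length_eq_dist x y
  obtain ⟨q, hq⟩ := quot_walk N p
  rw [← hp]
  exact (SimpleGraph.dist_le q).trans hq

lemma quot_lf (N : Subgroup (X ≃g X)) (hlf : ∀ v, (X.neighborSet v).Finite) (a : Orb N) :
    ((quotGraph N).neighborSet a).Finite := by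
  obtain ⟨x, rfl⟩ := orb_surj N a
  refine ((hlf x).image (orb N)).subset ?_
  rintro b ⟨_, x', y', hx', rfl, hxy⟩
  obtain ⟨n, hn, rfl⟩ := (orb_eq_iff N _ _).1 hx'
  refine ⟨n⁻¹ • y', ?_, ?_⟩
  · show X.Adj x (n⁻¹ • y')
    have h1 : X.Adj (n⁻¹ (n x)) (n⁻¹ y') := (SimpleGraph.Iso.map_adj_iff n⁻¹).2 hxy
    have h2 : n⁻¹ (n x) = x := n.symm_apply_apply x
    rw [h2] at h1
    exact h1
  · rw [orb_eq_iff]
    exact ⟨n⁻¹, N.inv_mem hn, rfl⟩

/-- the map on orbits induced by an element of the normaliser -/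
def quotMap (N : Subgroup (X ≃g X)) (φ : X ≃g X) (hφ : ∀ n ∈ N, φ * n * φ⁻¹ ∈ N) :
    Orb N → Orb N :=
  Quotient.map' (fun x => φ • x) (by
    rintro x y ⟨⟨n, hn⟩, h⟩
    refine ⟨⟨φ * n * φ⁻¹, hφ n hn⟩, ?_⟩
    have h' : n • y = x := h
    show (φ * n * φ⁻¹) • φ • y = φ • x
    rw [← h', ← mul_smul, ← mul_smul]
    congr 1
    group)

lemma quotMap_orb (N : Subgroup (X ≃g X)) (φ : X ≃g X) (hφ : ∀ n ∈ N, φ * n * φ⁻¹ ∈ N) (x : V) :
    quotMap N φ hφ (orb N x) = orb N (φ • x) := rfl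

/-- the action on the quotient graph of a group of automorphisms normalising `N` -/
def quotHom (N M : Subgroup (X ≃g X)) (hM : ∀ φ ∈ M, ∀ n ∈ N, φ * n * φ⁻¹ ∈ N) :
    M →* (quotGraph N ≃g quotGraph N) where
  toFun φ :=
    { toFun := quotMap N φ.1 (hM φ.1 φ.2)
      invFun := quotMap N φ.1⁻¹ (hM φ.1⁻¹ (M.inv_mem φ.2))
      left_inv := by
        intro a
        obtain ⟨x, rfl⟩ := orb_surj N a
        rw [quotMap_orb, quotMap_orb, inv_smul_smul]
      right_inv := by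
        intro a
        obtain ⟨x, rfl⟩ := orb_surj N a
        rw [quotMap_orb, quotMap_orb, smul_inv_smul]
      map_rel_iff' := by
        intro a b
        have key : ∀ (ψ : X ≃g X) (hψ : ∀ n ∈ N, ψ * n * ψ⁻¹ ∈ N)
            (hψ' : ∀ n ∈ N, ψ⁻¹ * n * ψ⁻¹⁻¹ ∈ N) (a b : Orb N),
            (quotGraph N).Adj a b → (quotGraph N).Adj (quotMap N ψ hψ a) (quotMap N ψ hψ b) := by
          rintro ψ hψ hψ' a b ⟨hne, x, y, rfl, rfl, hxy⟩
          refine ⟨?_, ψ • x, ψ • y, rfl, rfl, (SimpleGraph.Iso.map_adj_iff ψ).2 hxy⟩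
          intro he
          apply hne
          have h2 := congrArg (quotMap N ψ⁻¹ hψ') he
          rw [quotMap_orb, quotMap_orb, quotMap_orb, quotMap_orb, inv_smul_smul,
            inv_smul_smul] at h2
          exact h2
        constructor
        · intro h
          have h1 := key φ.1⁻¹ (hM φ.1⁻¹ (M.inv_mem φ.2)) (by
            rw [inv_inv]; exact hM φ.1 φ.2) _ _ h
          obtain ⟨x, rfl⟩ := orb_surj N a
          obtain ⟨y, rfl⟩ := orb_surj N b
          change (quotGraph N).Adj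
            (quotMap N φ.1⁻¹ (hM φ.1⁻¹ (M.inv_mem φ.2)) (quotMap N φ.1 (hM φ.1 φ.2) (orb N x)))
            (quotMap N φ.1⁻¹ (hM φ.1⁻¹ (M.inv_mem φ.2)) (quotMap N φ.1 (hM φ.1 φ.2) (orb N y)))
            at h1
          rw [quotMap_orb, quotMap_orb, quotMap_orb, quotMap_orb, inv_smul_smul,
            inv_smul_smul] at h1
          exact h1
        · intro h
          exact key φ.1 (hM φ.1 φ.2) (hM φ.1⁻¹ (M.inv_mem φ.2)) _ _ h }
  map_one' := by
    apply RelIso.ext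
    intro a
    obtain ⟨x, rfl⟩ := orb_surj N a
    show quotMap N ((1 : M) : X ≃g X) (hM _ (1 : M).2) (orb N x) = orb N x
    rw [quotMap_orb]
    simp
  map_mul' := by
    intro φ ψ
    apply RelIso.ext
    intro a
    obtain ⟨x, rfl⟩ := orb_surj N a
    show quotMap N ((φ * ψ : M) : X ≃g X) (hM _ (φ * ψ).2) (orb N x) =
      quotMap N φ.1 (hM _ φ.2) (quotMap N ψ.1 (hM _ ψ.2) (orb N x))
    rw [quotMap_orb, quotMap_orb, quotMap_orb]
    simp [mul_smul]

lemma quotHom_orb (N M : Subgroup (X ≃g X)) (hM : ∀ φ ∈ M, ∀ n ∈ N, φ * n * φ⁻¹ ∈ N)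
    (φ : M) (x : V) : quotHom N M hM φ (orb N x) = orb N ((φ : X ≃g X) • x) := rfl

end Pool.Agent.W385.GD
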