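import Mathlib

/-!
# Elements with finite orbits in a group with cocompact central `ℤ`
-/

set_option autoImplicit false

namespace Pool.Agent.W385.GD

section Transfer

/-- all orbits of the (monoid generated by the) element `q` are finite -/
def Ell {Q : Type*} (Ω : Type*) [Group Q] [MulAction Q Ω] (q : Q) : Prop :=
  ∀ t : Ω, {y | ∃ a : ℕ, y = q ^ a • t}.Finite

variable {Q Ω : Type*} [Group Q] [MulAction Q Ω]

lemma Ell.pow {q : Q} (h : Ell Ω q) (n : ℕ) : Ell Ω (q ^ n) := by
  intro t
  refine (h t).subset ?_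
  rintro _ ⟨a, rfl⟩
  exact ⟨n * a, by rw [pow_mul]⟩

lemma Ell.conj {q : Q} (h : Ell Ω q) (g : Q) : Ell Ω (g⁻¹ * q * g) := by
  intro t
  refine ((h (g • t)).image (fun y => g⁻¹ • y)).subset ?_
  rintro _ ⟨a, rfl⟩
  refine ⟨q ^ a • g • t, ⟨a, rfl⟩, ?_⟩
  have : (g⁻¹ * q * g) ^ a = g⁻¹ * q ^ a * g := by
    have h1 := conj_pow (i := a) (a := g⁻¹) (b := q)
    rw [inv_inv] at h1
    exact h1
  rw [this]
  simp only [← mul_smul, mul_assoc]

lemma Ell.inv {q : Q} (h : Ell Ω q) : Ell Ω q⁻¹ := by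
  intro t
  -- some positive power of `q` fixes `t`
  have h1 : ∃ a b : ℕ, a < b ∧ q ^ a • t = q ^ b • t := by
    by_contra hcon
    push Not at hcon
    apply Set.infinite_range_of_injective (f := fun a : ℕ => q ^ a • t) ?_
    · refine (h t).subset ?_
      rintro _ ⟨a, rfl⟩
      exact ⟨a, rfl⟩
    · intro a b hab
      rcases lt_trichotomy a b with hlt | heq | hgt
      · exact absurd hab (hcon a b hlt)
      · exact heq
      · exact absurd hab.symm (hcon b a hgt)
  obtain ⟨a, b, hab, heq⟩ := h1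
  have h2 : q ^ (b - a) • t = t := by
    have : q ^ b = q ^ a * q ^ (b - a) := by rw [← pow_add]; congr 1; omega
    rw [this, mul_smul] at heq
    exact (smul_left_cancel _ heq).symm
  have h3 : ∀ n : ℕ, (q ^ (b - a)) ^ n • t = t := by
    intro n
    induction n with
    | zero => simp
    | succ n ih => rw [pow_succ, mul_smul, h2, ih]
  refine (h t).subset ?_
  rintro _ ⟨n, rfl⟩
  refine ⟨(b - a) * n - n, ?_⟩
  have h4 : n ≤ (b - a) * n := Nat.le_mul_of_pos_left n (by omega)
  have h5 : q⁻¹ ^ n = q ^ ((b - a) * n - n) * ((q ^ (b - a)) ^ n)⁻¹ := by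
    rw [eq_mul_inv_iff_mul_eq, ← pow_mul, inv_pow, inv_mul_eq_iff_eq_mul, ← pow_add]
    congr 1
    omega
  rw [h5, mul_smul]
  congr 1
  rw [inv_smul_eq_iff]
  exact (h3 n).symm

/-- The set of elements mapping `ω` into its `⟨z⟩`-orbit. -/
def zstab (z : Q) (hz : ∀ q : Q, z * q = q * z) (ω : Ω) : Subgroup Q where
  carrier := {q | ∃ k : ℤ, q • ω = z ^ k • ω}
  one_mem' := ⟨0, by simp⟩
  mul_mem' := by
    rintro a b ⟨k, hk⟩ ⟨l, hl⟩
    have hc : ∀ (n : ℤ), a * z ^ n = z ^ n * a := fun n =>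
      ((Commute.zpow_right (show Commute a z from (hz a).symm)) n).eq
    exact ⟨k + l, by rw [mul_smul, hl, ← mul_smul, hc, mul_smul, hk, ← mul_smul, ← zpow_add,
      add_comm]⟩
  inv_mem' := by
    rintro a ⟨k, hk⟩
    have hc : ∀ (n : ℤ), a * z ^ n = z ^ n * a := fun n =>
      ((Commute.zpow_right (show Commute a z from (hz a).symm)) n).eq
    refine ⟨-k, ?_⟩
    rw [inv_smul_eq_iff, ← mul_smul, hc, mul_smul, hk, ← mul_smul, ← zpow_add]
    simp

/-- In a group `Q` acting on `Ω` with a central element `z` acting with infinite orbit on `ω` and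
such that `Q ω` consists of finitely many `⟨z⟩`-orbits, if the elements fixing `ω` have finite
orbits then the elements with finite orbits move `ω` to finitely many points only. -/
theorem ell_orbit_finite (z : Q) (hz : ∀ q : Q, z * q = q * z) (ω : Ω)
    (hfree : ∀ k : ℤ, z ^ k • ω = ω → k = 0)
    (F : Set Ω) (hF : F.Finite) (hQF : ∀ q : Q, ∃ f ∈ F, ∃ k : ℤ, q • ω = z ^ k • f)
    (hfix : ∀ q : Q, q • ω = ω → Ell Ω q) :
    {y | ∃ q : Q, Ell Ω q ∧ y = q • ω}.Finite := by
  classical
  have hc : ∀ (a : Q) (n : ℤ), a * z ^ n = z ^ n * a := fun a n =>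
    ((Commute.zpow_right (show Commute a z from (hz a).symm)) n).eq
  have huniq : ∀ k l : ℤ, z ^ k • ω = z ^ l • ω → k = l := by
    intro k l h
    have : z ^ (-l + k) • ω = ω := by
      rw [zpow_add, mul_smul, h, ← mul_smul, ← zpow_add]
      simp
    have := hfree _ this
    omega
  set H : Subgroup Q := zstab z hz ω with hH
  choose f hfF k hk using hQF
  -- finite index
  have hfi : Finite (Q ⧸ H) := by
    have : Finite F := hF.to_subtype
    refine Finite.of_injective (fun x : Q ⧸ H => (⟨f x.out, hfF x.out⟩ : F)) ?_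
    intro x y hxy
    have hxy' : f x.out = f y.out := congrArg Subtype.val hxy
    rw [← QuotientGroup.out_eq' x, ← QuotientGroup.out_eq' y, QuotientGroup.eq]
    refine ⟨k y.out - k x.out, ?_⟩
    rw [mul_smul, inv_smul_eq_iff, hk y.out, ← hxy', ← mul_smul, hc, mul_smul, hk x.out,
      ← mul_smul, ← zpow_add]
    congr 2
    omega
  have hfi' : H.FiniteIndex := Subgroup.finiteIndex_of_finite_quotient
  -- the homomorphism
  have hex : ∀ h : H, ∃ k : ℤ, (h : Q) • ω = z ^ k • ω := fun h => h.2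
  choose κ hκ using hex
  let φ : H →* Multiplicative ℤ := MonoidHom.mk' (fun h => Multiplicative.ofAdd (κ h)) (by
    intro a b
    rw [← ofAdd_add]
    congr 1
    apply huniq
    rw [← hκ (a * b), Subgroup.coe_mul, mul_smul, hκ b, ← mul_smul, hc, mul_smul, hκ a,
      ← mul_smul, ← zpow_add, add_comm])
  have hφ : ∀ h : H, φ h = Multiplicative.ofAdd (κ h) := fun h => rfl
  let τ : Q →* Multiplicative ℤ := MonoidHom.transfer φ
  -- elliptic elements of H
  have hell1 : ∀ h : H, Ell Ω (h : Q) → κ h = 0 := by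
    intro h he
    by_contra hne
    have hpow : ∀ a : ℕ, (h : Q) ^ a • ω = z ^ (κ h * a) • ω := by
      intro a
      induction a with
      | zero => simp
      | succ a ih =>
        rw [pow_succ', mul_smul, ih, ← mul_smul, hc, mul_smul, hκ h, ← mul_smul, ← zpow_add]
        congr 2
        push_cast
        ring
    apply Set.infinite_range_of_injective (f := fun a : ℕ => (h : Q) ^ a • ω) ?_
    · refine (he ω).subset ?_
      rintro _ ⟨a, rfl⟩
      exact ⟨a, rfl⟩
    · intro a b hab
      simp only at hab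
      rw [hpow, hpow] at hab
      have h1 := huniq _ _ hab
      have h2 : (a : ℤ) = b := mul_left_cancel₀ hne h1
      exact_mod_cast h2
  have hell : ∀ q : Q, Ell Ω q → τ q = 1 := by
    intro q hq
    have : Fintype (Quotient (MulAction.orbitRel (Subgroup.zpowers q) (Q ⧸ H))) :=
      Fintype.ofFinite _
    change MonoidHom.transfer φ q = 1
    rw [MonoidHom.transfer_eq_prod_quotient_orbitRel_zpowers_quot]
    apply Finset.prod_eq_one
    intro x _
    rw [hφ, hell1 _ ?_]
    · rfl
    · exact (hq.pow _).conj _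
  have hτz : ∀ c : ℤ, τ (z ^ c) = 1 → c = 0 := by
    intro c h
    have hkey : ∀ (k : ℕ) (g₀ : Q), g₀⁻¹ * z ^ k * g₀ ∈ H → g₀⁻¹ * z ^ k * g₀ = z ^ k := by
      intro k g₀ _
      rw [mul_assoc, ← zpow_natCast, ← hc, inv_mul_cancel_left]
    have h1 : τ z = φ ⟨z ^ H.index, MonoidHom.transfer_eq_pow_aux z hkey⟩ :=
      MonoidHom.transfer_eq_pow φ z hkey
    rw [hφ] at h1
    have h2 : κ ⟨z ^ H.index, MonoidHom.transfer_eq_pow_aux z hkey⟩ = (H.index : ℤ) := by
      apply huniq
      rw [← hκ]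
      simp
    rw [h2] at h1
    rw [map_zpow, h1, ← ofAdd_zsmul, ← ofAdd_zero, Multiplicative.ofAdd.injective.eq_iff,
      smul_eq_mul, mul_eq_zero] at h
    rcases h with h | h
    · exact h
    · exact absurd (by exact_mod_cast h) hfi'.index_ne_zero
  -- conclusion
  have hinj : ∀ q q' : Q, Ell Ω q → Ell Ω q' → f q = f q' → q • ω = q' • ω := by
    intro q q' hq hq' hff
    have h1 : q • ω = z ^ (k q - k q') • q' • ω := by
      rw [hk q', ← hff, ← mul_smul, ← zpow_add, hk q]
      congr 2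
      omega
    set c := k q - k q' with hcdef
    have h2 : ((z ^ c * q')⁻¹ * q) • ω = ω := by
      rw [mul_smul, inv_smul_eq_iff, h1, mul_smul]
    have h3 := hell _ (hfix _ h2)
    rw [map_mul, map_inv, map_mul, hell q hq, hell q' hq', mul_one, mul_one, inv_eq_one] at h3
    have h4 := hτz c h3
    rw [h1, h4]
    simp
  refine Set.Finite.of_finite_image (f := fun y : Ω => if h : ∃ q : Q, Ell Ω q ∧ y = q • ω then
    f h.choose else ω) ?_ ?_
  · refine hF.subset ?_
    rintro _ ⟨y, hy, rfl⟩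
    have e1 : (∃ q : Q, Ell Ω q ∧ y = q • ω) := hy
    simp only
    rw [dif_pos e1]
    exact hfF _
  · intro y hy y' hy' h
    simp only at h
    have e1 : (∃ q : Q, Ell Ω q ∧ y = q • ω) := hy
    have e2 : (∃ q : Q, Ell Ω q ∧ y' = q • ω) := hy'
    rw [dif_pos e1, dif_pos e2] at h
    rw [e1.choose_spec.2, e2.choose_spec.2]
    exact hinj _ _ e1.choose_spec.1 e2.choose_spec.1 h

end Transfer

end Pool.Agent.W385.GD
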