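import Pool.Agent.W385.GD.Top
import Pool.Agent.W385.GD.Dietz
import Pool.Agent.W385.GD.Transfer
import Pool.Agent.W385.GD.Quot

/-!
# Central extensions of graphically discrete groups
-/

set_option autoImplicit false

namespace Pool.Agent.W385.GD

section Basic

variable {V : Type*} {X : SimpleGraph V}

lemma ell_of_orbit_finite (hX : X.Connected) (hlf : ∀ v, (X.neighborSet v).Finite)
    (l : X ≃g X) (x : V) (h : {y | ∃ a : ℕ, y = l ^ a • x}.Finite) : Ell V l := by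
  intro t
  refine (h.biUnion (fun y _ => ball_finite hX hlf y (X.dist x t))).subset ?_
  rintro _ ⟨a, rfl⟩
  simp only [Set.mem_iUnion]
  refine ⟨l ^ a • x, ⟨a, rfl⟩, ?_⟩
  show X.dist (l ^ a • x) (l ^ a • t) ≤ _
  rw [dist_smul _ hX]

lemma ell_of_fix (hX : X.Connected) (hlf : ∀ v, (X.neighborSet v).Finite)
    (l : X ≃g X) (x : V) (h : l • x = x) : Ell V l := by
  apply ell_of_orbit_finite hX hlf l x
  refine (Set.finite_singleton x).subset ?_
  rintro _ ⟨a, rfl⟩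
  rw [Set.mem_singleton_iff]
  induction a with
  | zero => simp
  | succ a ih => rw [pow_succ', mul_smul, ih, h]

/-- elements with finite orbits moving every vertex by at most `r` -/
def EE (X : SimpleGraph V) (r : ℕ) : Set (X ≃g X) := {b | Ell V b ∧ ∀ x, X.dist x (b • x) ≤ r}

lemma EE_conj (hX : X.Connected) {r : ℕ} {b : X ≃g X} (hb : b ∈ EE X r) (g : X ≃g X) :
    g⁻¹ * b * g ∈ EE X r := by
  refine ⟨hb.1.conj g, fun x => ?_⟩
  have h := hb.2 (g • x)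
  rw [← dist_smul g hX, ← mul_smul]
  have : g * (g⁻¹ * b * g) = b * g := by group
  rw [this, mul_smul]
  exact h

lemma EE_inv (hX : X.Connected) {r : ℕ} {b : X ≃g X} (hb : b ∈ EE X r) : b⁻¹ ∈ EE X r := by
  refine ⟨hb.1.inv, fun x => ?_⟩
  rw [← dist_smul b hX, ← mul_smul, mul_inv_cancel, one_smul, X.dist_comm]
  exact hb.2 x

/-- the subgroup generated by `EE X r` -/
def PP (X : SimpleGraph V) (r : ℕ) : Subgroup (X ≃g X) := Subgroup.closure (EE X r)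

lemma EE_sub_PP {r : ℕ} {b : X ≃g X} (hb : b ∈ EE X r) : b ∈ PP X r :=
  Subgroup.subset_closure hb

lemma PP_conj (hX : X.Connected) {r : ℕ} {b : X ≃g X} (hb : b ∈ PP X r) (g : X ≃g X) :
    g * b * g⁻¹ ∈ PP X r := by
  have h1 : Subgroup.map (MulAut.conj g).toMonoidHom (PP X r) ≤ PP X r := by
    unfold PP
    rw [MonoidHom.map_closure]
    apply Subgroup.closure_mono
    rintro _ ⟨e, he, rfl⟩
    have := EE_conj hX he g⁻¹
    rw [inv_inv] at this
    exact this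
  exact h1 ⟨b, hb, rfl⟩

lemma PP_normal (hX : X.Connected) (r : ℕ) : (PP X r).Normal :=
  ⟨fun _ hb g => PP_conj hX hb g⟩

lemma PP_orbit (hX : X.Connected) (hlf : ∀ v, (X.neighborSet v).Finite) (r : ℕ) (x : V) :
    {y | ∃ φ ∈ PP X r, y = φ • x}.Finite := by
  apply closure_orbit_finite
  · intro s hs t _
    exact EE_conj hX hs t
  · intro s hs
    exact EE_inv hX hs
  · refine (ball_finite hX hlf x r).subset ?_
    rintro _ ⟨s, hs, rfl⟩
    exact hs.2 x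
  · intro s hs t
    exact hs.1 t

lemma disp {G : Type*} [Group G] (ρ : G →* (X ≃g X)) (hX : X.Connected) (F : Set V)
    (hF : F.Finite) (hGF : ∀ w : V, ∃ g : G, ∃ f ∈ F, ρ g • f = w) (E : Set (X ≃g X))
    (hE : ∀ e ∈ E, ∀ g : G, (ρ g)⁻¹ * e * ρ g ∈ E)
    (hfin : ∀ f ∈ F, {y | ∃ e ∈ E, y = e • f}.Finite) :
    ∃ r : ℕ, ∀ e ∈ E, ∀ x, X.dist x (e • x) ≤ r := by
  have h1 : (⋃ f ∈ F, (fun y => X.dist f y) '' {y | ∃ e ∈ E, y = e • f}).Finite :=
    hF.biUnion (fun f hf => (hfin f hf).image _)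
  obtain ⟨r, hr⟩ := h1.bddAbove
  refine ⟨r, ?_⟩
  intro e he x
  obtain ⟨g, f, hf, rfl⟩ := hGF x
  have h2 : X.dist (ρ g • f) (e • ρ g • f) = X.dist f (((ρ g)⁻¹ * e * ρ g) • f) := by
    rw [← dist_smul (ρ g) hX f]
    simp only [← mul_smul]
    congr 2
    group
  rw [h2]
  apply hr
  simp only [Set.mem_iUnion]
  exact ⟨f, hf, ((ρ g)⁻¹ * e * ρ g) • f, ⟨_, hE e he g, rfl⟩, rfl⟩

lemma proper_of_stab {Γ : Type*} [Group Γ] (hX : X.Connected)
    (hlf : ∀ v, (X.neighborSet v).Finite) (ρ : Γ →* (X ≃g X))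
    (h : ∀ v w : V, {γ : Γ | ρ γ v = w}.Finite) (v : V) (r : ℕ) :
    {γ : Γ | X.dist v (ρ γ v) ≤ r}.Finite := by
  refine ((ball_finite hX hlf v r).biUnion (fun w _ => h v w)).subset ?_
  intro γ hγ
  simp only [Set.mem_iUnion]
  exact ⟨ρ γ v, hγ, rfl⟩

lemma stab_of_proper {Γ : Type*} [Group Γ] {ρ : Γ →* (X ≃g X)} (h : IsGeometric X ρ) (v w : V) :
    {γ : Γ | ρ γ v = w}.Finite := by
  refine (h.proper v (X.dist v w)).subset ?_
  intro γ hγ
  have : ρ γ v = w := hγ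
  show X.dist v (ρ γ v) ≤ _
  rw [this]

lemma exists_fund {Γ : Type*} [Group Γ] (hX : X.Connected)
    (hlf : ∀ v, (X.neighborSet v).Finite) {ρ : Γ →* (X ≃g X)} (h : IsGeometric X ρ) :
    ∃ F : Set V, F.Finite ∧ ∀ w : V, ∃ g : Γ, ∃ f ∈ F, ρ g • f = w := by
  obtain ⟨v, r, hv⟩ := h.cocompact
  refine ⟨{w | X.dist v w ≤ r}, ball_finite hX hlf v r, ?_⟩
  intro w
  obtain ⟨γ, hγ⟩ := hv w
  refine ⟨γ, (ρ γ)⁻¹ • w, ?_, by rw [smul_inv_smul]⟩
  show X.dist v ((ρ γ)⁻¹ • w) ≤ r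
  rw [← dist_smul (ρ γ) hX, smul_inv_smul]
  exact hγ

end Basic

end Pool.Agent.W385.GD
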