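import Mathlib

/-!
# Graphically discrete groups: definitions

These are the definitions of problem MP_a6ff19_al.
-/

set_option autoImplicit false

namespace Pool.Agent.W385.GD

/-- The topology of pointwise convergence (on the vertices) on the automorphism group of a graph:
it is induced from the product topology on the maps from the vertex set to itself, where the
vertex set is discrete. -/
@[reducible] def autTopology {V : Type*} (X : SimpleGraph V) : TopologicalSpace (X ≃g X) :=
  TopologicalSpace.induced (fun φ : X ≃g X => (φ : V → V))
    (@Pi.topologicalSpace V (fun _ => V) (fun _ => ⊥))

/-- A group `G` with a topology is compact-by-discrete if it has a compact normal subgroup `K`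
such that `G ⧸ K` with the quotient topology is discrete. -/
def CompactByDiscrete (G : Type*) [Group G] [TopologicalSpace G] : Prop :=
  ∃ K : Subgroup G, K.Normal ∧ IsCompact (K : Set G) ∧ DiscreteTopology (G ⧸ K)

/-- An action of `Γ` by automorphisms on the connected graph `X` is geometric if it is proper (for
every vertex `v` and every `r` only finitely many elements move `v` by at most `r`) and cocompact
(every vertex is within some fixed distance of the orbit of some vertex) for the path metric. -/
structure IsGeometric {Γ V : Type*} [Group Γ] (X : SimpleGraph V) (ρ : Γ →* (X ≃g X)) : Prop where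
  proper : ∀ (v : V) (r : ℕ), {γ : Γ | X.dist v (ρ γ v) ≤ r}.Finite
  cocompact : ∃ (v : V) (r : ℕ), ∀ w : V, ∃ γ : Γ, X.dist (ρ γ v) w ≤ r

/-- A finitely generated group is graphically discrete if, for every connected locally finite
graph `X` on which it acts geometrically, the automorphism group of `X` (with the topology of
pointwise convergence) is compact-by-discrete. -/
def GraphicallyDiscrete (Γ : Type*) [Group Γ] : Prop :=
  Group.FG Γ ∧ ∀ (V : Type) (X : SimpleGraph V), X.Connected →
    (∀ v, (X.neighborSet v).Finite) →
    ∀ ρ : Γ →* (X ≃g X), IsGeometric X ρ →
      @CompactByDiscrete (X ≃g X) _ (autTopology X)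

end Pool.Agent.W385.GD
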