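import Pool.Agent.W385.GD.Main
import Pool.Agent.Helper294.Ore.M_cs_of_fg_nilpotent

/-!
# Products of graphically discrete groups with virtually nilpotent groups
-/

set_option autoImplicit false

namespace Pool.Agent.W385.GD

/-- A group with a central cyclic subgroup whose quotient is graphically discrete is graphically
discrete. -/
theorem gd_of_central {G : Type*} [Group G] (hfg : Group.FG G) (z₀ : G)
    (hz₀ : ∀ g : G, z₀ * g = g * z₀) [hn : (Subgroup.zpowers z₀).Normal]
    (h : GraphicallyDiscrete (G ⧸ Subgroup.zpowers z₀)) : GraphicallyDiscrete G :=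
  ⟨hfg, fun V X hX hlf ρ hρ => cbd_of_dsc X (dsc_of_central z₀ hz₀
    (fun W Y hY hYlf σ hσ => dsc_of_cbd Y (h.2 W Y hY hYlf σ hσ)) V X hX hlf ρ hρ)⟩

/-- A group with a graphically discrete subgroup of finite index is graphically discrete. -/
theorem gd_of_hom {H G : Type*} [Group H] [Group G] (i : H →* G) (hi : Function.Injective i)
    (T : Set G) (hT : T.Finite) (hcov : ∀ g : G, ∃ h : H, ∃ t ∈ T, g = i h * t)
    (hfg : Group.FG G) (hH : GraphicallyDiscrete H) : GraphicallyDiscrete G := by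
  refine ⟨hfg, ?_⟩
  intro V X hX hlf ρ hρ
  refine hH.2 V X hX hlf (ρ.comp i) ⟨?_, ?_⟩
  · intro v r
    exact (hρ.proper v r).preimage hi.injOn
  · obtain ⟨v, r, hv⟩ := hρ.cocompact
    have hb : ((fun t => X.dist v (ρ t v)) '' T).Finite := hT.image _
    obtain ⟨R, hR⟩ := hb.bddAbove
    refine ⟨v, R + r, ?_⟩
    intro w
    obtain ⟨g, hg⟩ := hv w
    obtain ⟨h, t, ht, rfl⟩ := hcov g
    refine ⟨h, ?_⟩
    have h1 : X.dist (ρ (i h) v) (ρ (i h * t) v) ≤ R := by
      rw [map_mul]
      have h2 := dist_smul (ρ (i h)) hX v (ρ t v)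
      change X.dist (ρ (i h) v) (ρ (i h) (ρ t v)) = _ at h2
      change X.dist (ρ (i h) v) (ρ (i h) (ρ t v)) ≤ R
      rw [h2]
      exact hR ⟨t, ht, rfl⟩
    exact (hX.dist_triangle).trans (add_le_add h1 hg)

theorem gd_of_equiv {H G : Type*} [Group H] [Group G] (e : H ≃* G) (hH : GraphicallyDiscrete H) :
    GraphicallyDiscrete G := by
  refine gd_of_hom e.toMonoidHom e.injective {1} (Set.finite_singleton 1) ?_ ?_ hH
  · intro g
    refine ⟨e.symm g, 1, rfl, by simp⟩
  · have := hH.1
    exact Group.fg_of_surjective (f := e.toMonoidHom) e.surjective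

theorem gd_prod_nilpotent (Γ Q : Type) [Group Γ] [Group Q] (hΓ : GraphicallyDiscrete Γ)
    (hQ : Group.FG Q) (hn : Group.IsNilpotent Q) : GraphicallyDiscrete (Γ × Q) := by
  have hΓfg := hΓ.1
  obtain ⟨n, ⟨C⟩⟩ := H294Ore.cs_of_fg_nilpotent Q
  have key : ∀ j ≤ n, ∀ (H : Type) [Group H] (f : Γ × Q →* H), Function.Surjective f →
      f.ker = (⊥ : Subgroup Γ).prod (C.c (n - j)) → GraphicallyDiscrete H := by
    intro j
    induction j with
    | zero =>
      intro _ H _ f hf hker
      rw [Nat.sub_zero, C.cn] at hker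
      have hker2 : (MonoidHom.fst Γ Q).ker = f.ker := by
        rw [hker]
        ext ⟨a, b⟩
        rw [MonoidHom.mem_ker, Subgroup.mem_prod]
        simp
      have e1 := QuotientGroup.quotientKerEquivOfSurjective (MonoidHom.fst Γ Q)
        (fun a => ⟨(a, 1), rfl⟩)
      have e2 := QuotientGroup.quotientKerEquivOfSurjective f hf
      have e3 := QuotientGroup.quotientMulEquivOfEq hker2
      exact gd_of_equiv ((e1.symm.trans e3).trans e2) hΓ
    | succ j ih =>
      intro hj H _ f hf hker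
      have hfgH : Group.FG H := Group.fg_of_surjective (f := f) hf
      set i := n - (j + 1) with hi
      have hi1 : n - j = i + 1 := by omega
      have hin : i < n := by omega
      set y : H := f (1, C.x i) with hy
      have hyc : ∀ h : H, y * h = h * y := by
        intro h
        obtain ⟨⟨a, b⟩, rfl⟩ := hf h
        have h1 : ((1 : Γ), C.x i) * (a, b) * (1, C.x i)⁻¹ * (a, b)⁻¹ ∈ f.ker := by
          rw [hker, Subgroup.mem_prod]
          refine ⟨by simp, C.cent i hin b⟩
        rw [MonoidHom.mem_ker, map_mul, map_mul, map_mul, map_inv, map_inv,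
          mul_inv_eq_one, mul_inv_eq_iff_eq_mul] at h1
        exact h1
      have hynorm : (Subgroup.zpowers y).Normal := by
        refine ⟨fun a ha g => ?_⟩
        obtain ⟨k, rfl⟩ := Subgroup.mem_zpowers_iff.1 ha
        have h1 : g * y ^ k = y ^ k * g := ((show Commute g y from (hyc g).symm).zpow_right k).eq
        rw [h1, mul_inv_cancel_right]
        exact ⟨k, rfl⟩
      refine gd_of_central hfgH y hyc ?_
      refine ih (by omega) (H ⧸ Subgroup.zpowers y) ((QuotientGroup.mk' _).comp f)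
        ((QuotientGroup.mk'_surjective _).comp hf) ?_
      rw [hi1, C.step i hin]
      ext ⟨a, b⟩
      rw [MonoidHom.mem_ker, MonoidHom.comp_apply, QuotientGroup.mk'_apply,
        QuotientGroup.eq_one_iff, Subgroup.mem_zpowers_iff, Subgroup.mem_prod]
      constructor
      · rintro ⟨k, hk⟩
        have h1 : (a, b) * ((1 : Γ), C.x i) ^ (-k) ∈ f.ker := by
          rw [MonoidHom.mem_ker, map_mul, map_zpow, ← hy, ← hk, ← zpow_add]
          simp
        rw [hker, Subgroup.mem_prod] at h1
        refine ⟨by simpa using h1.1, ?_⟩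
        have h2 : b * (C.x i) ^ (-k) ∈ C.c i := by simpa using h1.2
        have h3 : b = (b * (C.x i) ^ (-k)) * (C.x i) ^ k := by group
        show b ∈ _
        rw [h3]
        exact Subgroup.mul_mem_sup h2 ⟨k, rfl⟩
      · rintro ⟨ha, hb⟩
        have ha' : a = 1 := by simpa using ha
        subst ha'
        have h1 : C.c i ⊔ Subgroup.zpowers (C.x i) ≤
            (Subgroup.zpowers y).comap (f.comp (MonoidHom.inr Γ Q)) := by
          rw [sup_le_iff]
          constructor
          · intro q hq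
            have : ((1 : Γ), q) ∈ f.ker := by
              rw [hker, Subgroup.mem_prod]
              exact ⟨rfl, hq⟩
            refine ⟨0, ?_⟩
            rw [MonoidHom.mem_ker] at this
            show y ^ (0 : ℤ) = f (1, q)
            rw [this, zpow_zero]
          · rintro _ ⟨k, rfl⟩
            refine ⟨k, ?_⟩
            show y ^ k = f (1, C.x i ^ k)
            rw [hy, ← map_zpow]
            congr 1
            simp
        obtain ⟨k, hk⟩ := h1 hb
        exact ⟨k, hk⟩
  have h0 := key n le_rfl (Γ × Q) (MonoidHom.id _) Function.surjective_id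
  apply h0
  rw [Nat.sub_self, C.c0, MonoidHom.ker_id]
  ext ⟨a, b⟩
  rw [Subgroup.mem_prod, Subgroup.mem_bot, Subgroup.mem_bot, Subgroup.mem_bot, Prod.mk_eq_one]

theorem gd_prod_virtually_nilpotent (Γ Γ' : Type) [Group Γ] [Group Γ']
    (hΓ : GraphicallyDiscrete Γ) (hΓ' : Group.FG Γ') (N : Subgroup Γ') (hN : N.FiniteIndex)
    (hn : Group.IsNilpotent N) : GraphicallyDiscrete (Γ × Γ') := by
  have hΓfg := hΓ.1
  have hNfg : Group.FG N := Subgroup.fg_of_index_ne_zero N
  have h1 := gd_prod_nilpotent Γ N hΓ hNfg hn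
  have hfin : Finite (Γ' ⧸ N) := Subgroup.finite_quotient_of_finiteIndex
  refine gd_of_hom (MonoidHom.prodMap (MonoidHom.id Γ) N.subtype) ?_
    (Set.range (fun c : Γ' ⧸ N => ((1 : Γ), (c.out)⁻¹))) (Set.finite_range _) ?_ inferInstance h1
  · rintro ⟨a, b⟩ ⟨c, d⟩ h
    simp only [MonoidHom.prodMap_def, MonoidHom.prod_apply, MonoidHom.comp_apply,
      MonoidHom.coe_fst, MonoidHom.coe_snd, MonoidHom.id_apply, Subgroup.coe_subtype,
      Prod.mk.injEq] at h
    exact Prod.ext h.1 (Subtype.ext h.2)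
  · rintro ⟨a, b⟩
    have h2 : ((b⁻¹ : Γ') : Γ' ⧸ N).out⁻¹ * b⁻¹ ∈ N := by
      rw [← QuotientGroup.eq, QuotientGroup.out_eq']
    refine ⟨(a, ⟨(((b⁻¹ : Γ') : Γ' ⧸ N).out⁻¹ * b⁻¹)⁻¹, N.inv_mem h2⟩),
      ((1 : Γ), (((b⁻¹ : Γ') : Γ' ⧸ N).out)⁻¹), ⟨((b⁻¹ : Γ') : Γ' ⧸ N), rfl⟩, ?_⟩
    simp [MonoidHom.prodMap_def]

end Pool.Agent.W385.GD
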