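import Pool.Agent.W385.GD.Central

/-!
# Central extensions of graphically discrete groups: the main step
-/

set_option autoImplicit false

namespace Pool.Agent.W385.GD

lemma dist_two {V : Type*} {X : SimpleGraph V} (hX : X.Connected) (R : ℕ) (z v : X ≃g X)
    (hR : ∀ x, X.dist x (z • x) ≤ R) (x : V) :
    X.dist x ((z⁻¹ * (v * z * v⁻¹)) • x) ≤ 2 * R := by
  have h1 : X.dist x (z⁻¹ • x) ≤ R := by
    rw [← dist_smul z hX, smul_inv_smul, X.dist_comm]
    exact hR x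
  have h2 : X.dist (z⁻¹ • x) ((z⁻¹ * (v * z * v⁻¹)) • x) ≤ R := by
    rw [mul_smul, dist_smul z⁻¹ hX, mul_assoc, mul_smul, mul_smul]
    have h3 : X.dist x (v • z • v⁻¹ • x) = X.dist (v⁻¹ • x) (z • v⁻¹ • x) := by
      rw [← dist_smul v hX (v⁻¹ • x), smul_inv_smul]
    rw [h3]
    exact hR _
  have h4 := hX.dist_triangle (u := x) (v := z⁻¹ • x) (w := (z⁻¹ * (v * z * v⁻¹)) • x)
  omega

theorem dsc_of_central {G : Type*} [Group G] (z₀ : G) (hz₀ : ∀ g : G, z₀ * g = g * z₀)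
    [hZ : (Subgroup.zpowers z₀).Normal]
    (hgd : ∀ (W : Type) (Y : SimpleGraph W), Y.Connected → (∀ v, (Y.neighborSet v).Finite) →
      ∀ σ : (G ⧸ Subgroup.zpowers z₀) →* (Y ≃g Y), IsGeometric Y σ → Dsc Y)
    (V : Type) (X : SimpleGraph V) (hX : X.Connected) (hlf : ∀ v, (X.neighborSet v).Finite)
    (ρ : G →* (X ≃g X)) (hgeo : IsGeometric X ρ) : Dsc X := by
  classical
  obtain ⟨F, hF, hGF⟩ := exists_fund hX hlf hgeo
  set z : X ≃g X := ρ z₀ with hzdef
  have hcomm : ∀ g : G, z * ρ g = ρ g * z := by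
    intro g
    rw [hzdef, ← map_mul, hz₀, map_mul]
  obtain ⟨R, hR'⟩ := disp ρ hX F hF hGF {z} (by
      rintro _ rfl g
      rw [Set.mem_singleton_iff, mul_assoc, hcomm, inv_mul_cancel_left]) (by
      intro f _
      refine (Set.finite_singleton (z • f)).subset ?_
      rintro _ ⟨_, rfl, rfl⟩
      rfl)
  have hR : ∀ x, X.dist x (z • x) ≤ R := fun x => hR' z rfl x
  set P : Subgroup (X ≃g X) := PP X (2 * R) with hPdef
  have hPn : P.Normal := PP_normal hX _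
  have hPo : ∀ x : V, {y | ∃ φ ∈ P, y = φ • x}.Finite := fun x => PP_orbit hX hlf _ x
  -- the centraliser of `z` modulo `P`
  set L₁ : Subgroup (X ≃g X) :=
    (Subgroup.centralizer {((z : X ≃g X) : (X ≃g X) ⧸ P)}).comap (QuotientGroup.mk' P) with hL₁
  have memL₁ : ∀ l : X ≃g X, l ∈ L₁ ↔ (z * l)⁻¹ * (l * z) ∈ P := by
    intro l
    rw [hL₁, Subgroup.mem_comap, Subgroup.mem_centralizer_singleton_iff]
    rw [QuotientGroup.mk'_apply, ← QuotientGroup.mk_mul, ← QuotientGroup.mk_mul, eq_comm,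
      QuotientGroup.eq]
  -- the group generated by `z` and `P`
  set N : Subgroup (X ≃g X) :=
    (Subgroup.zpowers ((z : X ≃g X) : (X ≃g X) ⧸ P)).comap (QuotientGroup.mk' P) with hNdef
  have memN : ∀ n : X ≃g X, n ∈ N ↔ ∃ k : ℤ, (z ^ k)⁻¹ * n ∈ P := by
    intro n
    rw [hNdef, Subgroup.mem_comap, Subgroup.mem_zpowers_iff]
    constructor
    · rintro ⟨k, hk⟩
      refine ⟨k, ?_⟩
      rw [← QuotientGroup.eq, QuotientGroup.mk_zpow]
      exact hk
    · rintro ⟨k, hk⟩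
      refine ⟨k, ?_⟩
      rw [← QuotientGroup.eq, QuotientGroup.mk_zpow] at hk
      exact hk
  have hzN : z ∈ N := (memN z).2 ⟨1, by simp [P.one_mem]⟩
  have hPN' : ∀ p ∈ P, p ∈ N := fun p hp => (memN p).2 ⟨0, by simpa using hp⟩
  have hN : ∀ φ ∈ L₁, ∀ n ∈ N, φ * n * φ⁻¹ ∈ N := by
    intro φ hφ n hn
    rw [hNdef, Subgroup.mem_comap, Subgroup.mem_zpowers_iff] at hn ⊢
    obtain ⟨k, hk⟩ := hn
    refine ⟨k, ?_⟩
    rw [hL₁, Subgroup.mem_comap, Subgroup.mem_centralizer_singleton_iff] at hφ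
    rw [map_mul, map_mul, ← hk, map_inv, eq_mul_inv_iff_mul_eq]
    exact ((Commute.zpow_right hφ k).eq).symm
  have hPP : ∀ φ ∈ L₁, ∀ n ∈ P, φ * n * φ⁻¹ ∈ P := fun φ _ n hn => PP_conj hX hn φ
  have hρL : ∀ g : G, ρ g ∈ L₁ := by
    intro g
    rw [memL₁, hcomm]
    simp [P.one_mem]
  have hzL : z ∈ L₁ := hρL z₀
  set θ := quotHom N L₁ hN with hθ
  set θP := quotHom P L₁ hPP with hθP
  have hθorb : ∀ (l : L₁) (x : V), θ l (orb N x) = orb N ((l : X ≃g X) • x) := fun l x => rfl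
  have hθPorb : ∀ (l : L₁) (x : V), θP l (orb P x) = orb P ((l : X ≃g X) • x) := fun l x => rfl
  have hθz : θ ⟨z, hzL⟩ = 1 := by
    apply RelIso.ext
    intro a
    obtain ⟨x, rfl⟩ := orb_surj N a
    rw [hθorb]
    show orb N (z • x) = orb N x
    rw [orb_eq_iff]
    exact ⟨z, hzN, rfl⟩
  -- the action of the quotient group
  let ρ₁ : G →* L₁ := ρ.codRestrict L₁ hρL
  have hker : ∀ g ∈ Subgroup.zpowers z₀, (θ.comp ρ₁) g = 1 := by
    intro g hg
    obtain ⟨k, rfl⟩ := Subgroup.mem_zpowers_iff.1 hg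
    rw [map_zpow]
    have : (θ.comp ρ₁) z₀ = 1 := hθz
    rw [this, one_zpow]
  let σ : (G ⧸ Subgroup.zpowers z₀) →* (quotGraph N ≃g quotGraph N) :=
    QuotientGroup.lift (Subgroup.zpowers z₀) (θ.comp ρ₁) hker
  have hσ : ∀ (g : G) (x : V), σ (g : G ⧸ Subgroup.zpowers z₀) (orb N x) = orb N (ρ g • x) :=
    fun g x => rfl
  have hYc := quot_connected N hX
  have hYlf := fun a => quot_lf N hlf a
  have hσgeo : IsGeometric (quotGraph N) σ := by
    refine ⟨?_, ?_⟩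
    · apply proper_of_stab hYc hYlf
      intro a b
      obtain ⟨x, rfl⟩ := orb_surj N a
      obtain ⟨y, rfl⟩ := orb_surj N b
      have h1 : {g : G | ∃ φ ∈ P, ρ g • x = φ • y}.Finite := by
        refine ((hPo y).biUnion (fun w _ => stab_of_proper hgeo x w)).subset ?_
        rintro g ⟨φ, hφ, h⟩
        simp only [Set.mem_iUnion]
        exact ⟨φ • y, ⟨φ, hφ, rfl⟩, h⟩
      refine (h1.image (fun g : G => (g : G ⧸ Subgroup.zpowers z₀))).subset ?_
      intro γ hγ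
      obtain ⟨g, rfl⟩ := QuotientGroup.mk_surjective γ
      have h2 : orb N (ρ g • x) = orb N y := hγ
      obtain ⟨n, hn, h3⟩ := (orb_eq_iff N _ _).1 h2
      obtain ⟨k, hk⟩ := (memN n).1 hn
      refine ⟨z₀ ^ (-k) * g, ⟨(z ^ k)⁻¹ * n, hk, ?_⟩, ?_⟩
      · rw [map_mul, map_zpow, mul_smul, ← h3, mul_smul, ← hzdef, zpow_neg]
      · show ((z₀ ^ (-k) * g : G) : G ⧸ Subgroup.zpowers z₀) = (g : G ⧸ Subgroup.zpowers z₀)
        rw [QuotientGroup.mk_mul, QuotientGroup.mk_zpow]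
        have : ((z₀ : G) : G ⧸ Subgroup.zpowers z₀) = 1 :=
          (QuotientGroup.eq_one_iff z₀).2 (Subgroup.mem_zpowers z₀)
        rw [this, one_zpow, one_mul]
    · obtain ⟨v, r, hv⟩ := hgeo.cocompact
      refine ⟨orb N v, r, ?_⟩
      intro b
      obtain ⟨w, rfl⟩ := orb_surj N b
      obtain ⟨γ, hγ⟩ := hv w
      refine ⟨(γ : G ⧸ Subgroup.zpowers z₀), ?_⟩
      rw [hσ]
      exact (quot_dist N hX _ _).trans hγ
  obtain ⟨PY, hPYn, hPYo, BY, hBY, hBYP⟩ := hgd _ (quotGraph N) hYc hYlf σ hσgeo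
  -- the relevant elements
  set EQ : Set (X ≃g X) := {l | ∃ h : l ∈ L₁, θ ⟨l, h⟩ ∈ PY ∧ Ell V l} with hEQ
  have hEQconj : ∀ e ∈ EQ, ∀ g : G, (ρ g)⁻¹ * e * ρ g ∈ EQ := by
    rintro e ⟨h, hθe, hel⟩ g
    refine ⟨L₁.mul_mem (L₁.mul_mem (L₁.inv_mem (hρL g)) h) (hρL g), ?_, hel.conj _⟩
    have h1 : θ ⟨(ρ g)⁻¹ * e * ρ g, L₁.mul_mem (L₁.mul_mem (L₁.inv_mem (hρL g)) h) (hρL g)⟩ =
        (θ ⟨ρ g, hρL g⟩)⁻¹ * θ ⟨e, h⟩ * θ ⟨ρ g, hρL g⟩ := by
      have e1 : (⟨(ρ g)⁻¹ * e * ρ g, L₁.mul_mem (L₁.mul_mem (L₁.inv_mem (hρL g)) h) (hρL g)⟩ :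
          L₁) = (⟨ρ g, hρL g⟩ : L₁)⁻¹ * ⟨e, h⟩ * ⟨ρ g, hρL g⟩ := rfl
      rw [e1, map_mul, map_mul, map_inv]
    rw [h1]
    have := hPYn.conj_mem _ hθe (θ ⟨ρ g, hρL g⟩)⁻¹
    rwa [inv_inv] at this
  have hsurj : ∀ a : Orb N, ∃ x : V, orb N x = a := orb_surj N
  choose s hs using hsurj
  have hPfib : ∀ a : Orb P, {y : V | orb P y = a}.Finite := by
    intro a
    obtain ⟨x, rfl⟩ := orb_surj P a
    refine (hPo x).subset ?_
    intro y hy
    obtain ⟨p, hp, h⟩ := (orb_eq_iff P _ _).1 hy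
    exact ⟨p, hp, h.symm⟩
  have hEQfin : ∀ x : V, {y | ∃ e ∈ EQ, y = e • x}.Finite := by
    intro x
    suffices h : {a : Orb P | ∃ e ∈ EQ, a = orb P (e • x)}.Finite by
      refine (h.biUnion (fun a _ => hPfib a)).subset ?_
      rintro _ ⟨e, he, rfl⟩
      simp only [Set.mem_iUnion]
      exact ⟨orb P (e • x), ⟨e, he, rfl⟩, rfl⟩
    set O : Set (Orb N) := {w | ∃ φ ∈ PY, w = φ (orb N x)} with hO
    have hOfin : O.Finite := hPYo (orb N x)
    set FΩ : Set (Orb P) := (fun w => orb P (s w)) '' O with hFΩ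
    have hFΩfin : FΩ.Finite := hOfin.image _
    have hcov : ∀ (l : X ≃g X) (hl : l ∈ L₁), θ ⟨l, hl⟩ ∈ PY →
        ∃ w ∈ O, ∃ k : ℤ, ∃ p ∈ P, l • x = z ^ k • p • s w := by
      intro l hl hθl
      refine ⟨θ ⟨l, hl⟩ (orb N x), ⟨_, hθl, rfl⟩, ?_⟩
      have h1 : orb N (l • x) = orb N (s (θ ⟨l, hl⟩ (orb N x))) := by
        rw [hs]
        rfl
      obtain ⟨n, hn, h2⟩ := (orb_eq_iff N _ _).1 h1
      obtain ⟨k, hk⟩ := (memN n).1 hn
      refine ⟨k, (z ^ k)⁻¹ * n, hk, ?_⟩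
      rw [← mul_smul, mul_inv_cancel_left, h2]
    by_cases hz : Ell V z
    · -- `z ∈ P`
      have hzP : z ∈ P := EE_sub_PP ⟨hz, fun y => (hR y).trans (by omega)⟩
      refine hFΩfin.subset ?_
      rintro _ ⟨e, ⟨he, hθe, _⟩, rfl⟩
      obtain ⟨w, hw, k, p, hp, h1⟩ := hcov e he hθe
      refine ⟨w, hw, ?_⟩
      show orb P (s w) = orb P (e • x)
      rw [h1, ← mul_smul, eq_comm, orb_eq_iff]
      exact ⟨_, P.mul_mem (P.zpow_mem hzP k) hp, rfl⟩
    · -- `z` of infinite order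
      -- translates of the `P`-orbit
      have hfree : ∀ (k : ℤ), (∃ p ∈ P, z ^ k • x = p • x) → k = 0 := by
        by_contra hcon
        push Not at hcon
        obtain ⟨k, ⟨p, hp, hk⟩, hk0⟩ := hcon
        apply hz
        -- a positive exponent
        obtain ⟨n, hn, q, hq, hnq⟩ : ∃ n : ℕ, 0 < n ∧ ∃ q ∈ P, z ^ n • x = q • x := by
          rcases lt_or_gt_of_ne hk0 with hneg | hpos
          · refine ⟨(-k).toNat, by omega, z ^ (-k) * p⁻¹ * (z ^ (-k))⁻¹,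
              PP_conj hX (P.inv_mem hp) _, ?_⟩
            have e1 : z ^ (-k).toNat = z ^ (-k) := by
              rw [← zpow_natCast, Int.toNat_of_nonneg (by omega)]
            rw [e1]
            have e2 : x = p⁻¹ • z ^ k • x := by rw [hk, inv_smul_smul]
            have e3 : (z ^ (-k) * p⁻¹ * (z ^ (-k))⁻¹) • x = z ^ (-k) • (p⁻¹ • z ^ k • x) := by
              rw [mul_smul, mul_smul, zpow_neg, inv_inv]
            rw [e3, ← e2]
          · refine ⟨k.toNat, by omega, p, hp, ?_⟩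
            have e1 : z ^ k.toNat = z ^ k := by
              rw [← zpow_natCast, Int.toNat_of_nonneg (by omega)]
            rw [e1, hk]
        have hmul : ∀ j : ℕ, ∃ q' ∈ P, z ^ (n * j) • x = q' • x := by
          intro j
          induction j with
          | zero => exact ⟨1, P.one_mem, by simp⟩
          | succ j ih =>
            obtain ⟨q', hq', h⟩ := ih
            refine ⟨(z ^ n * q' * (z ^ n)⁻¹) * q, P.mul_mem (PP_conj hX hq' _) hq, ?_⟩
            rw [mul_add, mul_one, add_comm, pow_add, mul_smul, h, mul_smul, ← hnq]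
            simp only [← mul_smul]
            congr 1
            group
        apply ell_of_orbit_finite hX hlf z x
        have hfin1 : (⋃ i ∈ Set.Iio n, (fun y => z ^ i • y) '' {y | ∃ φ ∈ P, y = φ • x}).Finite :=
          (Set.finite_Iio n).biUnion (fun i _ => (hPo x).image _)
        refine hfin1.subset ?_
        rintro _ ⟨a, rfl⟩
        simp only [Set.mem_iUnion]
        obtain ⟨q', hq', h⟩ := hmul (a / n)
        refine ⟨a % n, Nat.mod_lt a hn, q' • x, ⟨q', hq', rfl⟩, ?_⟩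
        show z ^ (a % n) • q' • x = z ^ a • x
        rw [← h, ← mul_smul, ← pow_add, Nat.mod_add_div]
      set QQ : Subgroup (quotGraph P ≃g quotGraph P) := (PY.comap θ).map θP with hQQ
      let zq : QQ := ⟨θP ⟨z, hzL⟩, ⟨z, hzL⟩, by
        show θ ⟨z, hzL⟩ ∈ PY
        rw [hθz]; exact PY.one_mem, rfl⟩
      have hzqk : ∀ (k : ℤ) (y : V), zq ^ k • orb P y = orb P (z ^ k • y) := by
        intro k y
        have e1 : ((zq ^ k : QQ) : quotGraph P ≃g quotGraph P) = θP (⟨z, hzL⟩ ^ k) := by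
          rw [map_zpow]
          rfl
        show ((zq ^ k : QQ) : quotGraph P ≃g quotGraph P) (orb P y) = _
        rw [e1, hθPorb]
        rfl
      have hres := ell_orbit_finite (Ω := Orb P) zq (by
          rintro ⟨q, ⟨l, hl⟩, hlq, rfl⟩
          apply Subtype.ext
          show θP ⟨z, hzL⟩ * θP ⟨l, hl⟩ = θP ⟨l, hl⟩ * θP ⟨z, hzL⟩
          rw [← map_mul, ← map_mul]
          apply RelIso.ext
          intro a
          obtain ⟨y, rfl⟩ := orb_surj P a
          rw [hθPorb, hθPorb]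
          show orb P ((z * l) • y) = orb P ((l * z) • y)
          rw [eq_comm, orb_eq_iff]
          refine ⟨(z * l) * ((z * l)⁻¹ * (l * z)) * (z * l)⁻¹,
            PP_conj hX ((memL₁ l).1 hl) _, ?_⟩
          simp only [← mul_smul]
          congr 1
          group) (orb P x) (by
          intro k hk
          apply hfree
          rw [hzqk, orb_eq_iff] at hk
          obtain ⟨p, hp, h⟩ := hk
          exact ⟨p, hp, h.symm⟩) FΩ hFΩfin (by
          rintro ⟨q, ⟨l, hl⟩, hlq, rfl⟩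
          obtain ⟨w, hw, k, p, hp, h1⟩ := hcov l hl hlq
          refine ⟨orb P (s w), ⟨w, hw, rfl⟩, k, ?_⟩
          rw [hzqk]
          show orb P (l • x) = _
          rw [h1, orb_eq_iff]
          refine ⟨z ^ k * p * (z ^ k)⁻¹, PP_conj hX hp _, ?_⟩
          simp only [← mul_smul]
          congr 1
          group) (by
          rintro ⟨q, ⟨l, hl⟩, hlq, rfl⟩ hfix
          have h1 : orb P (l • x) = orb P x := hfix
          obtain ⟨p, hp, h2⟩ := (orb_eq_iff P _ _).1 h1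
          have h3 : ∀ a : ℕ, ∃ p ∈ P, l ^ a • x = p • x := by
            intro a
            induction a with
            | zero => exact ⟨1, P.one_mem, by simp⟩
            | succ a ih =>
              obtain ⟨p', hp', h⟩ := ih
              refine ⟨(l * p' * l⁻¹) * p, P.mul_mem (PP_conj hX hp' _) hp, ?_⟩
              rw [pow_succ', mul_smul, h, mul_smul, h2]
              simp only [← mul_smul]
              congr 1
              group
          have h4 : Ell V l := by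
            apply ell_of_orbit_finite hX hlf l x
            refine (hPo x).subset ?_
            rintro _ ⟨a, rfl⟩
            exact h3 a
          intro t
          obtain ⟨y, rfl⟩ := orb_surj P t
          refine ((h4 y).image (orb P)).subset ?_
          rintro _ ⟨a, rfl⟩
          refine ⟨l ^ a • y, ⟨a, rfl⟩, ?_⟩
          symm
          have e1 : (((⟨θP ⟨l, hl⟩, ⟨l, hl⟩, hlq, rfl⟩ : QQ) ^ a : QQ) :
              quotGraph P ≃g quotGraph P) = θP (⟨l, hl⟩ ^ a) := by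
            rw [map_pow]
            rfl
          show (((⟨θP ⟨l, hl⟩, ⟨l, hl⟩, hlq, rfl⟩ : QQ) ^ a : QQ) :
              quotGraph P ≃g quotGraph P) (orb P y) = _
          rw [e1, hθPorb]
          rfl)
      refine hres.subset ?_
      rintro _ ⟨e, ⟨he, hθe, hel⟩, rfl⟩
      refine ⟨⟨θP ⟨e, he⟩, ⟨e, he⟩, hθe, rfl⟩, ?_, rfl⟩
      intro t
      obtain ⟨y, rfl⟩ := orb_surj P t
      refine ((hel y).image (orb P)).subset ?_
      rintro _ ⟨a, rfl⟩
      refine ⟨e ^ a • y, ⟨a, rfl⟩, ?_⟩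
      symm
      have e1 : (((⟨θP ⟨e, he⟩, ⟨e, he⟩, hθe, rfl⟩ : QQ) ^ a : QQ) :
          quotGraph P ≃g quotGraph P) = θP (⟨e, he⟩ ^ a) := by
        rw [map_pow]
        rfl
      show (((⟨θP ⟨e, he⟩, ⟨e, he⟩, hθe, rfl⟩ : QQ) ^ a : QQ) :
          quotGraph P ≃g quotGraph P) (orb P y) = _
      rw [e1, hθPorb]
      rfl
  obtain ⟨r, hr⟩ := disp ρ hX F hF hGF EQ hEQconj (fun f _ => hEQfin f)
  have hne := hX.nonempty
  obtain ⟨x₀⟩ := hne
  refine ⟨PP X r, PP_normal hX r, fun v => PP_orbit hX hlf r v,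
    {w | X.dist x₀ w ≤ R} ∪ s '' BY, (ball_finite hX hlf x₀ R).union (hBY.image s), ?_⟩
  intro φ hφ
  have hφx₀ : φ • x₀ = x₀ := hφ x₀ (Or.inl (by simp))
  have hφe : Ell V φ := ell_of_fix hX hlf φ x₀ hφx₀
  have hφinv : φ⁻¹ • x₀ = x₀ := by rw [inv_smul_eq_iff, hφx₀]
  have hφL : φ ∈ L₁ := by
    have h1 : z⁻¹ * (φ * z * φ⁻¹) ∈ P := by
      apply EE_sub_PP
      refine ⟨?_, fun y => dist_two hX R z φ hR y⟩
      apply ell_of_fix hX hlf _ x₀
      rw [mul_smul, mul_smul, mul_smul, hφinv]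
      have h2 : φ • z • x₀ = z • x₀ := hφ (z • x₀) (Or.inl (hR x₀))
      rw [h2, inv_smul_smul]
    rw [memL₁]
    have h3 := PP_conj hX h1 φ⁻¹
    have h4 : (z * φ)⁻¹ * (φ * z) = φ⁻¹ * (z⁻¹ * (φ * z * φ⁻¹)) * φ⁻¹⁻¹ := by group
    rw [h4]
    exact h3
  have hφθ : θ ⟨φ, hφL⟩ ∈ PY := by
    apply hBYP
    intro b hb
    have h1 : φ • s b = s b := hφ (s b) (Or.inr ⟨b, hb, rfl⟩)
    have h2 : θ ⟨φ, hφL⟩ (orb N (s b)) = orb N (φ • s b) := rfl
    rw [h1, hs] at h2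
    exact h2
  exact EE_sub_PP ⟨hφe, fun x => hr φ ⟨hφL, hφθ, hφe⟩ x⟩

end Pool.Agent.W385.GD
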