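import Pool.Agent.W385.GD.Defs
import Pool.Agent.W385.GD.Graph

/-!
# A combinatorial form of being compact-by-discrete
-/

set_option autoImplicit false
set_option linter.style.haveILetI false

namespace Pool.Agent.W385.GD

variable {V : Type*}

/-- The combinatorial form: there is a normal subgroup with finite orbits which contains the
pointwise stabiliser of a finite set of vertices. -/
def Dsc (X : SimpleGraph V) : Prop :=
  ∃ P : Subgroup (X ≃g X), P.Normal ∧ (∀ v : V, {w | ∃ φ ∈ P, w = φ v}.Finite) ∧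
    ∃ B : Set V, B.Finite ∧ ∀ φ : X ≃g X, (∀ b ∈ B, φ b = b) → φ ∈ P

lemma isOpen_agree (X : SimpleGraph V) (B : Set V) (hB : B.Finite) (ψ : X ≃g X) :
    @IsOpen _ (autTopology X) {φ : X ≃g X | ∀ b ∈ B, φ b = ψ b} := by
  letI : TopologicalSpace V := ⊥
  haveI : DiscreteTopology V := ⟨rfl⟩
  letI := autTopology X
  have h1 : IsOpen {f : V → V | ∀ b ∈ B, f b = ψ b} := by
    have h2 : {f : V → V | ∀ b ∈ B, f b = ψ b} = B.pi (fun b => {ψ b}) := by
      ext f
      simp [Set.mem_pi]
    rw [h2]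
    exact isOpen_set_pi hB (fun b _ => isOpen_discrete _)
  exact isOpen_induced (f := fun φ : X ≃g X => (φ : V → V)) h1

theorem dsc_of_cbd (X : SimpleGraph V) (h : @CompactByDiscrete (X ≃g X) _ (autTopology X)) :
    Dsc X := by
  letI tV : TopologicalSpace V := ⊥
  haveI : DiscreteTopology V := ⟨rfl⟩
  letI tA := autTopology X
  obtain ⟨K, hK, hc, hd⟩ := h
  have hcont : Continuous (fun φ : X ≃g X => (φ : V → V)) := continuous_induced_dom
  refine ⟨K, hK, ?_, ?_⟩
  · intro v
    have h1 : IsCompact ((fun φ : X ≃g X => φ v) '' (K : Set (X ≃g X))) :=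
      hc.image ((continuous_apply v).comp hcont)
    rw [isCompact_iff_finite] at h1
    refine h1.subset ?_
    rintro w ⟨φ, hφ, rfl⟩
    exact ⟨φ, hφ, rfl⟩
  · have hq : Continuous (QuotientGroup.mk : (X ≃g X) → (X ≃g X) ⧸ K) := continuous_quot_mk
    have h2 : IsOpen (K : Set (X ≃g X)) := by
      have h3 : IsOpen ((QuotientGroup.mk : (X ≃g X) → (X ≃g X) ⧸ K) ⁻¹' {QuotientGroup.mk 1}) :=
        (isOpen_discrete _).preimage hq
      have h4 : ((QuotientGroup.mk : (X ≃g X) → (X ≃g X) ⧸ K) ⁻¹' {QuotientGroup.mk 1}) =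
          (K : Set (X ≃g X)) := by
        ext φ
        rw [Set.mem_preimage, Set.mem_singleton_iff, eq_comm, QuotientGroup.eq]
        simp
      rwa [h4] at h3
    obtain ⟨t, ht, htK⟩ := isOpen_induced_iff.1 h2
    have h5 : (id : V → V) ∈ t := by
      have : (1 : X ≃g X) ∈ (fun φ : X ≃g X => (φ : V → V)) ⁻¹' t := by
        rw [htK]; exact K.one_mem
      exact this
    obtain ⟨I, u, hu, hsub⟩ := isOpen_pi_iff.1 ht _ h5
    refine ⟨(I : Set V), I.finite_toSet, ?_⟩
    intro φ hφ
    have h6 : (φ : V → V) ∈ t := by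
      apply hsub
      intro a ha
      rw [hφ a ha]
      exact (hu a ha).2
    have h7 : φ ∈ (fun φ : X ≃g X => (φ : V → V)) ⁻¹' t := h6
    rw [htK] at h7
    exact h7

theorem cbd_of_dsc (X : SimpleGraph V) (h : Dsc X) :
    @CompactByDiscrete (X ≃g X) _ (autTopology X) := by
  letI tV : TopologicalSpace V := ⊥
  haveI : DiscreteTopology V := ⟨rfl⟩
  letI tA := autTopology X
  obtain ⟨P, hP, hO, B, hB, hBP⟩ := h
  have hagree : ∀ φ ψ : X ≃g X, (∀ b ∈ B, φ b = ψ b) → ψ⁻¹ * φ ∈ P := by
    intro φ ψ h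
    apply hBP
    intro b hb
    show ψ⁻¹ (φ b) = b
    rw [h b hb]
    exact ψ.symm_apply_apply b
  have hcoset : ∀ g : X ≃g X, IsOpen {φ : X ≃g X | g⁻¹ * φ ∈ P} := by
    intro g
    rw [isOpen_iff_forall_mem_open]
    intro φ hφ
    refine ⟨_, ?_, isOpen_agree X B hB φ, fun b _ => rfl⟩
    intro ψ hψ
    have h1 : φ⁻¹ * ψ ∈ P := hagree ψ φ hψ
    have h2 : g⁻¹ * ψ = (g⁻¹ * φ) * (φ⁻¹ * ψ) := by group
    show g⁻¹ * ψ ∈ P
    rw [h2]
    exact P.mul_mem hφ h1
  refine ⟨P, hP, ?_, ?_⟩
  · -- compactness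
    have hclosed : IsClosed (P : Set (X ≃g X)) := by
      rw [← isOpen_compl_iff, isOpen_iff_forall_mem_open]
      intro φ hφ
      refine ⟨_, ?_, isOpen_agree X B hB φ, fun b _ => rfl⟩
      intro ψ hψ hψP
      apply hφ
      have h1 : φ⁻¹ * ψ ∈ P := hagree ψ φ hψ
      have h2 : φ = ψ * (φ⁻¹ * ψ)⁻¹ := by group
      rw [SetLike.mem_coe, h2]
      exact P.mul_mem hψP (P.inv_mem h1)
    set O : V → Set V := fun v => {w | ∃ φ ∈ P, w = φ v} with hOdef
    have hOself : ∀ v, v ∈ O v := fun v => ⟨1, P.one_mem, rfl⟩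
    have hOtr : ∀ u v w, v ∈ O u → w ∈ O v → w ∈ O u := by
      rintro u v w ⟨φ, hφ, rfl⟩ ⟨ψ, hψ, rfl⟩
      exact ⟨ψ * φ, P.mul_mem hψ hφ, rfl⟩
    set T : Set (V → V) := {f | (∀ v, f v ∈ O v) ∧ (∀ v w, f v = f w → v = w) ∧
      (∀ v w, X.Adj (f v) (f w) ↔ X.Adj v w)} with hT
    have hTcomp : IsCompact T := by
      have h1 : IsCompact (Set.univ.pi O) := isCompact_univ_pi (fun v => (hO v).isCompact)
      refine h1.of_isClosed_subset ?_ (fun f hf v _ => hf.1 v)
      have hev : ∀ v w : V, Continuous (fun f : V → V => (f v, f w)) := fun v w =>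
        (continuous_apply v).prodMk (continuous_apply w)
      have h2 : T = (⋂ v, {f : V → V | f v ∈ O v}) ∩ ((⋂ v, ⋂ w, {f : V → V | f v = f w → v = w}) ∩
          (⋂ v, ⋂ w, {f : V → V | X.Adj (f v) (f w) ↔ X.Adj v w})) := by
        ext f
        simp only [hT, Set.mem_ofPred_eq, Set.mem_inter_iff, Set.mem_iInter]
      rw [h2]
      refine IsClosed.inter (isClosed_iInter fun v => ?_) (IsClosed.inter
        (isClosed_iInter fun v => isClosed_iInter fun w => ?_)
        (isClosed_iInter fun v => isClosed_iInter fun w => ?_))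
      · exact (isClosed_discrete (O v)).preimage (continuous_apply v)
      · exact (isClosed_discrete {p : V × V | p.1 = p.2 → v = w}).preimage (hev v w)
      · exact (isClosed_discrete {p : V × V | X.Adj p.1 p.2 ↔ X.Adj v w}).preimage (hev v w)
    have hind : Topology.IsInducing (fun φ : X ≃g X => (φ : V → V)) := ⟨rfl⟩
    have hC : IsCompact {φ : X ≃g X | ∀ v, φ v ∈ O v} := by
      rw [hind.isCompact_iff]
      have h3 : (fun φ : X ≃g X => (φ : V → V)) '' {φ : X ≃g X | ∀ v, φ v ∈ O v} = T := by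
        ext f
        constructor
        · rintro ⟨φ, hφ, rfl⟩
          exact ⟨hφ, fun v w h => φ.injective h, fun v w => φ.map_adj_iff⟩
        · rintro ⟨hf1, hf2, hf3⟩
          have hsurj : Function.Surjective f := by
            intro w
            have hfin : Finite (O w) := (hO w).to_subtype
            let g : O w → O w := fun x => ⟨f x, hOtr w x (f x) x.2 (hf1 x)⟩
            have hg : Function.Injective g := by
              intro x y hxy
              have : f x = f y := congrArg Subtype.val hxy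
              exact Subtype.ext (hf2 _ _ this)
            obtain ⟨x, hx⟩ := Finite.surjective_of_injective hg ⟨w, hOself w⟩
            exact ⟨x, congrArg Subtype.val hx⟩
          refine ⟨⟨Equiv.ofBijective f ⟨fun v w h => hf2 v w h, hsurj⟩, ?_⟩, ?_, ?_⟩
          · intro a b
            exact hf3 a b
          · intro v
            exact hf1 v
          · rfl
      rw [h3]
      exact hTcomp
    exact hC.of_isClosed_subset hclosed (fun φ hφ v => ⟨φ, hφ, rfl⟩)
  · rw [discreteTopology_iff_isOpen_singleton]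
    intro x
    obtain ⟨g, rfl⟩ := QuotientGroup.mk_surjective x
    have h1 : IsOpen ((QuotientGroup.mk : (X ≃g X) → (X ≃g X) ⧸ P) ⁻¹' {QuotientGroup.mk g}) := by
      have h2 : ((QuotientGroup.mk : (X ≃g X) → (X ≃g X) ⧸ P) ⁻¹' {QuotientGroup.mk g}) =
          {φ : X ≃g X | g⁻¹ * φ ∈ P} := by
        ext φ
        rw [Set.mem_preimage, Set.mem_singleton_iff, eq_comm, QuotientGroup.eq]
        rfl
      rw [h2]
      exact hcoset g
    exact h1

end Pool.Agent.W385.GD
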